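import Pool.Agent.MP_57c6f5_nt.Main

namespace Pool.Agent.Results.MP_57c6f5_nt.ExpGrowth

open Pool.Agent.MP_57c6f5_nt

/-- One solution `u ++ v` whose product avoids two residues modulo `5` and ten residues modulo
`2861` forces exponentially many new solutions beginning with `u` at every large length. -/
theorem result (u v : List ℕ) (hsol : IsSol (u ++ v))
    (h5 : (u ++ v).prod % 5 ∉ ({0, 4} : Finset ℕ))
    (hp : (u ++ v).prod % 2861 ∉
      ({0, 426, 1023, 1201, 1202, 1658, 1659, 1837, 2434, 2860} : Finset ℕ))
    (s : ℕ) (hs : (u ++ v).length + 487 ≤ s) :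
    Omega u s + 2 ^ ((s - (u ++ v).length - 487) / 227) ≤ Omega u (s + 1) := by
  refine G.main u v hsol ?_ ?_ s hs
  · simp only [Finset.mem_insert, Finset.mem_singleton] at h5
    omega
  · simpa [G.exc] using hp

end Pool.Agent.Results.MP_57c6f5_nt.ExpGrowth
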